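import Pool.Agent.Y187.WQ.Stm
import Pool.Agent.H130R2.Kad5.C5
import Pool.Agent.H445R2.Kad4.Range

/-!
Factors of type III are good (helper260).
-/

set_option autoImplicit false

open scoped ComplexOrder InnerProductSpace
open Finset Filter

noncomputable section

namespace Pool.Agent.Y260.WQ

open Pool.Agent.Y187.WQ
open H759R2.Kad (IsFac IsPr Prj Fnt Pos prove6_spec prove5_range)

variable {H : Type} [NormedAddCommGroup H] [InnerProductSpace ℂ H] [CompleteSpace H]

omit [CompleteSpace H] in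
theorem smul_nn {x : H →L[ℂ] H} (hx : 0 ≤ x) {r : ℝ} (hr : 0 ≤ r) : 0 ≤ ((r : ℝ) : ℂ) • x := by
  rw [ContinuousLinearMap.nonneg_iff_isPositive] at hx ⊢
  exact hx.smul_of_nonneg (by exact_mod_cast hr)

/-- The trivial average. -/
def triv (N : VonNeumannAlgebra H) (q : H →L[ℂ] H) : Avg N q where
  ι := Unit
  fin := inferInstance
  t := fun _ => 1
  u := fun _ => 1
  ht := fun _ => zero_le_one
  hs := by simp
  hu := fun _ => one_mem _
  hN := fun _ => one_mem N
  hq := fun _ => by rw [one_mul, mul_one]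

theorem triv_ap (N : VonNeumannAlgebra H) (q z : H →L[ℂ] H) : (triv N q).ap z = z := by
  change ∑ _k : Unit, ((1 : ℝ) : ℂ) • ((1 : H →L[ℂ] H) * z * star 1) = z
  simp

/-- The average of the identity and `u`. -/
def two (N : VonNeumannAlgebra H) (q u : H →L[ℂ] H) (hu : u ∈ unitary (H →L[ℂ] H)) (hN : u ∈ N)
    (hq : u * q = q * u) : Avg N q where
  ι := Bool
  fin := inferInstance
  t := fun _ => 1 / 2
  u := fun b => if b then u else 1
  ht := fun _ => by norm_num
  hs := by rw [Fintype.sum_bool]; norm_num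
  hu := fun b => by cases b <;> simp [hu]
  hN := fun b => by cases b <;> simp [hN]
  hq := fun b => by cases b <;> simp [hq]

theorem two_ap (N : VonNeumannAlgebra H) (q u : H →L[ℂ] H) (hu : u ∈ unitary (H →L[ℂ] H))
    (hN : u ∈ N) (hq : u * q = q * u) (z : H →L[ℂ] H) :
    (two N q u hu hN hq).ap z =
      ((1 / 2 : ℝ) : ℂ) • (u * z * star u) + ((1 / 2 : ℝ) : ℂ) • z := by
  change ∑ b : Bool, ((1 / 2 : ℝ) : ℂ) • ((if b then u else 1) * z *
    star (if b then u else 1)) = _
  rw [Fintype.sum_bool]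
  simp

/-- The self-adjoint unitary exchanging `1 - e` with a part of `e`. -/
theorem swap (e V : H →L[ℂ] H) (he : IsPr e) (hV : star V * V = 1) (heV : e * V = V) :
    ∃ f : H →L[ℂ] H, f = V * (1 - e) * star V ∧
      0 ≤ e - f ∧
      star (V * (1 - e) + (1 - e) * star V + (e - f)) =
        V * (1 - e) + (1 - e) * star V + (e - f) ∧
      (V * (1 - e) + (1 - e) * star V + (e - f)) * (V * (1 - e) + (1 - e) * star V + (e - f)) = 1 ∧
      (V * (1 - e) + (1 - e) * star V + (e - f)) * f *
        (V * (1 - e) + (1 - e) * star V + (e - f)) = 1 - e := by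
  obtain ⟨he1, he2⟩ := he
  have hVe : star V * e = star V := by
    have := congrArg star heV
    rwa [star_mul, he1] at this
  set g : H →L[ℂ] H := 1 - e with hg
  have hg1 : star g = g := by rw [hg, star_sub, star_one, he1]
  have hg2 : g * g = g := by rw [hg, sub_mul, one_mul, mul_sub, mul_one, he2]; simp
  have hgV : g * V = 0 := by rw [hg, sub_mul, one_mul, heV, sub_self]
  have hVg : star V * g = 0 := by rw [hg, mul_sub, mul_one, hVe, sub_self]
  have hge : g * e = 0 := by rw [hg, sub_mul, one_mul, he2, sub_self]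
  have heg : e * g = 0 := by rw [hg, mul_sub, mul_one, he2, sub_self]
  refine ⟨V * g * star V, rfl, ?_, ?_, ?_, ?_⟩
  all_goals set f : H →L[ℂ] H := V * g * star V with hf
  all_goals have hf1 : star f = f := by
              rw [hf, star_mul, star_mul, star_star, hg1, mul_assoc]
  all_goals have hef : e * f = f := by rw [hf, ← mul_assoc, ← mul_assoc, heV]
  all_goals have hfe : f * e = f := by rw [hf, mul_assoc, hVe]
  all_goals have hff : f * f = f := by
              calc f * f = V * g * (star V * V) * g * star V := by rw [hf]; simp only [mul_assoc]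
                _ = V * (g * g) * star V := by rw [hV]; simp only [mul_assoc, mul_one]
                _ = f := by rw [hg2]
  all_goals have hgf : g * f = 0 := by rw [hf, ← mul_assoc, ← mul_assoc, hgV]; simp
  all_goals have hfg : f * g = 0 := by rw [hf, mul_assoc, hVg, mul_zero]
  all_goals have hfV : f * (V * g) = V * g := by
              calc f * (V * g) = V * g * (star V * V) * g := by rw [hf]; simp only [mul_assoc]
                _ = V * (g * g) := by rw [hV]; simp only [mul_assoc, mul_one]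
                _ = V * g := by rw [hg2]
  all_goals have hVf : g * star V * f = g * star V := by
              have := congrArg star hfV
              rwa [star_mul, star_mul, hg1, hf1] at this
  · have h1 : e - f = star (e - f) * (e - f) := by
      rw [star_sub, he1, hf1, sub_mul, mul_sub, mul_sub, he2, hef, hfe, hff]
      simp
    rw [h1]
    exact star_mul_self_nonneg _
  · rw [star_add, star_add, star_sub, star_mul, star_mul, star_star, hg1, he1, hf1]
    abel
  · have h1 : V * g * (V * g) = 0 := by rw [mul_assoc, ← mul_assoc g V, hgV]; simp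
    have h2 : V * g * (g * star V) = f := by rw [mul_assoc, ← mul_assoc g g, hg2, hf, mul_assoc]
    have h3 : V * g * (e - f) = 0 := by rw [mul_assoc, mul_sub, hge, hgf]; simp
    have h4 : g * star V * (V * g) = g := by
      rw [mul_assoc, ← mul_assoc (star V) V, hV, one_mul, hg2]
    have h5 : g * star V * (g * star V) = 0 := by
      rw [mul_assoc, ← mul_assoc (star V) g, hVg]; simp
    have h6 : g * star V * (e - f) = 0 := by
      rw [mul_sub, hVf, mul_assoc, hVe, sub_self]
    have h7 : (e - f) * (V * g) = 0 := by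
      rw [sub_mul, hfV, ← mul_assoc, heV, sub_self]
    have h8 : (e - f) * (g * star V) = 0 := by
      rw [← mul_assoc, sub_mul, heg, hfg]; simp
    have h9 : (e - f) * (e - f) = e - f := by
      rw [sub_mul, mul_sub, mul_sub, he2, hef, hfe, hff]
      simp
    rw [add_mul, add_mul, mul_add, mul_add, mul_add, mul_add, mul_add, mul_add, h1, h2, h3, h4, h5,
      h6, h7, h8, h9, hg]
    abel
  · have h1 : (V * g + g * star V + (e - f)) * f = g * star V := by
      have h0 : (e - f) * f = 0 := by rw [sub_mul, hef, hff, sub_self]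
      rw [add_mul, add_mul, mul_assoc, hgf, hVf, h0]
      simp
    have h4 : g * star V * (V * g) = g := by
      rw [mul_assoc, ← mul_assoc (star V) V, hV, one_mul, hg2]
    have h5 : g * star V * (g * star V) = 0 := by
      rw [mul_assoc, ← mul_assoc (star V) g, hVg]; simp
    have h6 : g * star V * (e - f) = 0 := by
      rw [mul_sub, hVf, mul_assoc, hVe, sub_self]
    rw [h1, mul_add, mul_add, h4, h5, h6]
    simp

theorem t_good3 : W_good3 := by
  intro H _ _ _ N hV
  refine ⟨Set.univ, ?_, ?_⟩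
  · intro x _ _ h
    ext ξ
    exact h ξ (Set.mem_univ _)
  intro ξ _
  refine ⟨4 * ‖ξ‖ ^ 2 + 1, by positivity, ?_⟩
  intro a haN ha0 _ ε hε
  by_cases ha : a = 0
  · refine ⟨triv N 1, ?_⟩
    rw [triv_ap, ha]
    have h1 : ((⟪ξ, (0 : H →L[ℂ] H) ξ⟫_ℂ).re / (4 * ‖ξ‖ ^ 2 + 1) - ε : ℝ) = -ε := by
      simp
    rw [h1, ← sub_nonneg, zero_sub, ← neg_smul, ← Complex.ofReal_neg, neg_neg]
    exact smul_nn (by simp) hε.le
  set t : ℝ := ‖a‖ / 2 with ht
  have hapos : 0 < ‖a‖ := norm_pos_iff.2 ha
  have ht0 : 0 ≤ t := by positivity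
  have hsa : star a = a := (IsSelfAdjoint.of_nonneg ha0 : IsSelfAdjoint a)
  obtain ⟨e', he', -, hea', ⟨c, hc⟩, ⟨d, hd⟩⟩ := prove6_spec prove5_range H N 1 ⟨a, haN⟩ t
    ⟨star_one _, one_mul _⟩ (Subtype.ext hsa) (one_mul _)
  set e : H →L[ℂ] H := (e' : H →L[ℂ] H) with hee
  have heN : e ∈ N := e'.2
  have he : IsPr e := ⟨congrArg Subtype.val he'.1, congrArg Subtype.val he'.2⟩
  have hea : e * a = a * e := congrArg Subtype.val hea'
  have hc' : a * e - (t : ℂ) • e = star (c : H →L[ℂ] H) * (c : H →L[ℂ] H) :=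
    congrArg Subtype.val hc
  have hd' : (t : ℂ) • (1 - e) - a * (1 - e) = star (d : H →L[ℂ] H) * (d : H →L[ℂ] H) :=
    congrArg Subtype.val hd
  have hge1 : (1 - e) * (1 - e) = 1 - e := by
    rw [sub_mul, one_mul, mul_sub, mul_one, he.2]; simp
  have hgs : star (1 - e) = 1 - e := by rw [star_sub, star_one, he.1]
  have hae : 0 ≤ a - (t : ℂ) • e := by
    have h1 : a - (t : ℂ) • e = (a * e - (t : ℂ) • e) + (1 - e) * a * star (1 - e) := by
      rw [hgs]
      have h2 : (1 - e) * a * (1 - e) = a * (1 - e) := by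
        have h3 : (1 - e) * a = a * (1 - e) := by rw [sub_mul, mul_sub, one_mul, mul_one, hea]
        rw [h3, mul_assoc, hge1]
      rw [h2, mul_sub, mul_one]
      abel
    rw [h1, hc']
    exact add_nonneg (star_mul_self_nonneg _) (star_right_conjugate_nonneg ha0 _)
  have hene : e ≠ 0 := by
    intro h0
    rw [h0, sub_zero, mul_one] at hd'
    have h1 : a ≤ (t : ℂ) • (1 : H →L[ℂ] H) := by
      rw [← sub_nonneg, hd']
      exact star_mul_self_nonneg _
    have h2 : a ≤ algebraMap ℝ (H →L[ℂ] H) t := by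
      rw [Algebra.algebraMap_eq_smul_one]
      convert h1 using 1
      ext x
      simp
    have h3 := (CStarAlgebra.norm_le_iff_le_algebraMap a ht0 ha0).2 h2
    rw [ht] at h3
    linarith
  obtain ⟨V, hVN, hVV, heV⟩ := hV e heN he hene
  obtain ⟨f, hf, hef0, hs1, hs2, hs3⟩ := swap e V he hVV heV
  set s : H →L[ℂ] H := V * (1 - e) + (1 - e) * star V + (e - f) with hs
  have hgN : 1 - e ∈ N := sub_mem (one_mem N) heN
  have hfN : f ∈ N := by rw [hf]; exact mul_mem (mul_mem hVN hgN) (star_mem hVN)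
  have hsN : s ∈ N := by
    rw [hs]
    exact add_mem (add_mem (mul_mem hVN hgN) (mul_mem hgN (star_mem hVN))) (sub_mem heN hfN)
  have hsU : s ∈ unitary (H →L[ℂ] H) := by
    rw [Unitary.mem_iff, hs1]
    exact ⟨hs2, hs2⟩
  refine ⟨two N 1 s hsU hsN (by rw [mul_one, one_mul]), ?_⟩
  rw [two_ap, ← sub_nonneg, hs1]
  set r : ℝ := (⟪ξ, a ξ⟫_ℂ).re / (4 * ‖ξ‖ ^ 2 + 1) - ε with hr
  have hrt : 0 ≤ t / 2 - r := by
    have h1 : (⟪ξ, a ξ⟫_ℂ).re ≤ ‖a‖ * ‖ξ‖ ^ 2 := by
      refine (Complex.re_le_norm _).trans ((norm_inner_le_norm _ _).trans ?_)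
      have := a.le_opNorm ξ
      have h0 := norm_nonneg ξ
      calc ‖ξ‖ * ‖a ξ‖ ≤ ‖ξ‖ * (‖a‖ * ‖ξ‖) := mul_le_mul_of_nonneg_left this h0
        _ = ‖a‖ * ‖ξ‖ ^ 2 := by ring
    have h2 : (⟪ξ, a ξ⟫_ℂ).re / (4 * ‖ξ‖ ^ 2 + 1) ≤ ‖a‖ / 4 := by
      rw [div_le_iff₀ (by positivity)]
      nlinarith
    rw [hr, ht]
    linarith
  have key : ((1 / 2 : ℝ) : ℂ) • (s * a * s) + ((1 / 2 : ℝ) : ℂ) • a - (r : ℂ) • (1 : H →L[ℂ] H) =
      ((1 / 2 : ℝ) : ℂ) • (s * (a - (t : ℂ) • e) * star s) +
      ((1 / 2 : ℝ) : ℂ) • (a - (t : ℂ) • e) +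
      ((t / 2 : ℝ) : ℂ) • (s * (e - f) * star s) +
      ((t / 2 - r : ℝ) : ℂ) • (1 : H →L[ℂ] H) := by
    have h1 : s * (a - (t : ℂ) • e) * s = s * a * s - (t : ℂ) • (s * e * s) := by
      rw [mul_sub, sub_mul, mul_smul_comm, smul_mul_assoc]
    have h2 : s * (e - f) * s = s * e * s - (1 - e) := by
      rw [mul_sub, sub_mul, hs3]
    rw [hs1, h1, h2]
    push_cast
    module
  rw [key]
  refine add_nonneg (add_nonneg (add_nonneg ?_ ?_) ?_) ?_
  · exact smul_nn (star_right_conjugate_nonneg hae _) (by norm_num)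
  · exact smul_nn hae (by norm_num)
  · exact smul_nn (star_right_conjugate_nonneg hef0 _) (by positivity)
  · exact smul_nn (by simp) hrt

end Pool.Agent.Y260.WQ
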